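import Pool.Agent.K9h92.EI.Up

/-! Least primes in the classes of an arbitrary modulus: the true order in every short interval of
classes. -/

set_option autoImplicit false

namespace Pool.Agent.Results.MP_e1dc24_nt.EveryShortIntervalOfClasses
open Finset

/-- The number of primes `p ≡ a (mod m)` with `z < p ≤ z + y`. For `z = 0` it is at least one exactly
when the least prime congruent to `a` modulo `m` is at most `y`. -/
def primesIn (m z y a : ℕ) : ℕ := ((Ioc z (z + y)).filter (fun p => p.Prime ∧ p ≡ a [MOD m])).card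

/-- For every large `m`, every interval `(x, x + H]` of `m ^ (1 - κ) ≤ H ≤ m` consecutive integers and
every `(z, z + y]` with `y ≥ m` and `z + y ≤ m ^ (1 + κ)`: the number of the `a` in `(x, x + H]` prime
to `m` whose class contains a prime of `(z, z + y]` has the order of `(H / m) * min (φ m) (y / log m)`;
for the lower bound the `a` with at least `c * y / (φ m * log m)` primes are enough. -/
theorem result : ∃ c C κ : ℝ, 0 < c ∧ 0 < C ∧ 0 < κ ∧ ∃ m₀ : ℕ, ∀ m : ℕ, m₀ ≤ m → ∀ x H z y : ℕ,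
    (m : ℝ) ^ (1 - κ) ≤ H → H ≤ m → m ≤ y → ((z + y : ℕ) : ℝ) ≤ (m : ℝ) ^ (1 + κ) →
    c * (H / m) * min (m.totient : ℝ) (y / Real.log m) ≤
      (((Ioc x (x + H)).filter (fun a => a.Coprime m ∧ 1 ≤ primesIn m z y a ∧
        c * (y / (m.totient * Real.log m)) ≤ primesIn m z y a)).card : ℝ) ∧
    (((Ioc x (x + H)).filter (fun a => a.Coprime m ∧ 1 ≤ primesIn m z y a)).card : ℝ) ≤
      C * (H / m) * min (m.totient : ℝ) (y / Real.log m) := by
  obtain ⟨c, κ, hc, hκ, hκ3, m₁, hm₁, h1⟩ := Pool.Agent.K9h92.EI.lower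
  obtain ⟨C, hC, m₂, h2⟩ := Pool.Agent.K9h92.EI.upper
  refine ⟨c, C, κ, hc, hC, hκ, max m₁ m₂, fun m hm x H z y hH1 hH2 hy hzy => ?_⟩
  have hma : m₁ ≤ m := (le_max_left _ _).trans hm
  have hmb : m₂ ≤ m := (le_max_right _ _).trans hm
  have hm1 : (1 : ℝ) ≤ m := by exact_mod_cast (by omega : 1 ≤ m)
  have hH3 : (m : ℝ) ^ (2 / 3 : ℝ) ≤ H :=
    (Real.rpow_le_rpow_of_exponent_le hm1 (by linarith)).trans hH1
  exact ⟨h1 m hma x H z y hH1 hH2 hy hzy, h2 m hmb x H z y hH3 hH2 hy⟩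

end Pool.Agent.Results.MP_e1dc24_nt.EveryShortIntervalOfClasses
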