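import Pool.Agent.K9h54.LP.F12

/-!
# Many classes with a large least prime, on average over the modulus

`p(c, m)` is the least prime `≡ c (mod m)`. The heuristic share of the reduced classes with `p(c, m) > λ φ(m) log m` is
`e^{-λ}`. A count of the primes up to `λ φ(m) log m` gives the share `1 - λ` at least, which says nothing for `λ ≥ 1`.

Here the first three factorial moments of the number of the primes `c + m, c + 2 m, ..., c + J m` are used, on average
over the modulus in `(M, 2 M]`, `J` about `λ φ(m) log m / m`. With the polynomial `(1 - X) (1 - X / k) (1 - X / (k + 1))`,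
which is at most the indicator of `X = 0` at the natural numbers `X`, they give the share
`1 - λ + λ² (2 k - 1 - λ) / (k (k + 1))` for every `k ≥ 1`, which is positive for `k = 3` and every `λ < 2`.

Method: the primes in the three linear forms `c + j m` are replaced by a sieve model by the circle method (a Fourier
transform modulo an auxiliary prime, in two variables); the singular series are averaged over the moduli and over the
indices `j` after a restriction to classes modulo the product of the small primes.
-/

set_option autoImplicit false

namespace Pool.Agent.Results.MP_e1dc24_nt.ManyLargeLeastPrimes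

open Finset

open Classical in
/-- For every real `λ > 0`, every natural `k ≥ 1` and every `ε > 0`, for all large `M`: among the pairs `(m, c)` with
`M < m ≤ 2 M`, `1 ≤ c ≤ m`, `(c, m) = 1` (there are `∑ φ(m)` of them), the share of those for which every prime
`p ≡ c (mod m)` is larger than `λ φ(m) log m` is at least `1 - λ + λ² (2 k - 1 - λ) / (k (k + 1)) - ε`. -/
theorem result (lam : ℝ) (hlam : 0 < lam) (k : ℕ) (hk : 1 ≤ k) (ε : ℝ) (hε : 0 < ε) : ∃ M₀ : ℕ, ∀ M : ℕ, M₀ ≤ M →
    (1 - lam + lam ^ 2 * (2 * k - 1 - lam) / (k * (k + 1)) - ε) * ∑ m ∈ Ioc M (2 * M), (m.totient : ℝ) ≤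
      ∑ m ∈ Ioc M (2 * M), (((Icc 1 m).filter fun c => c.Coprime m ∧
        ∀ p : ℕ, p.Prime → p ≡ c [MOD m] → lam * m.totient * Real.log m < p).card : ℝ) :=
  Pool.Agent.K9h54.LP.final lam hlam k hk ε hε

end Pool.Agent.Results.MP_e1dc24_nt.ManyLargeLeastPrimes
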