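import Pool.Agent.K9h19.CR.Asm
import Pool.Agent.K9h19.CR.CLS
import Pool.Agent.K9h44.SC.Main2
import Pool.Agent.K9h44.SC.Ari
import Pool.Agent.K9h44.SC.Copz
import Pool.Agent.K9h44.SC.Ncpp

/-!
# The least primes in the residue classes which lie in short intervals, for almost all moduli

`p(c, m)` is the least prime `p ≡ c (mod m)`. There is an absolute constant `C` such that for every `A` there are `D`, `M₀`
with the following property. Let `M ≥ M₀`, `M^(1/3) (log M)^D ≤ H ≤ M`, `1 ≤ y ≤ (log M)^A`, and let `s(m)`, `M < m ≤ 2M`,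
be any starting points with `s(m) ≤ s(m + 1) + y / 4` (so `s` may increase arbitrarily, and decrease by `y / 4` at each
step). Then the number of the pairs `(m, c)` with

`M < m ≤ 2M`, `s(m) < c ≤ min(s(m) + H, m)`, `(c, m) = 1`, `p(c, m) > y m`

is at most `C M H log M / y + M H / (log M)^A`. So `p(c, m) ≤ h m log m` for all but `O(1 / h)` of the pairs of a modulus
`m` and a class `c` in an interval of the length `H = M^(1/3) (log M)^D`, and `p(c, m) ≤ m (log m)^(A + 1)` for all but
`O((log M)^(-A))` of the pairs; for example for the classes `c ≤ H`. (The order `m log m` cannot be replaced by a smaller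
one.)

Proof (in Lean, without any unproved hypothesis): the variance

`∑_m ∑_{c ∈ (s(m), s(m) + H], (c, m) = 1} (∑_{y/4 < j < y} Λ(c + j m) - R m / φ(m))^2`

is evaluated by opening the square. For given `j < j'` the numbers `n = c + j m` and `n' = c + j' m` are congruent modulo
`j' - j`, and for given `n` the numbers `m` form an interval, so that `n'` runs over a residue class modulo `j' - j` in a
short interval; its first point is a strictly increasing function of `n`, and so the primes in progressions in almost all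
short intervals (`K9h19/CR`, with the theorem of Siegel and Walfisz) give the asymptotic upper bound with the main term
`(j' - j) / φ(j' - j)`. The main terms of the square, of the cross term and of the mean value of `(m / φ(m))^2` cancel: both
the mean value of `d / φ(d)` over the differences and the one of `m / φ(m)` over the moduli are
`∑_{e ≤ R} μ²(e) / (e φ(e))`.
-/

set_option autoImplicit false

namespace Pool.Agent.Results.MP_e1dc24_nt.ShortIntervalsOfClasses

open Finset

/-- `p(c, m)`: the least prime `p ≡ c (mod m)`. -/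
noncomputable def leastPrime (c m : ℕ) : ℕ := sInf {p : ℕ | p.Prime ∧ p ≡ c [MOD m]}

open Classical in
/-- The number of the pairs `(m, c)` with `M < m ≤ 2M`, `s(m) < c ≤ s(m) + H`, `c ≤ m`, `(c, m) = 1` and `p(c, m) > y m`. -/
noncomputable def latePairs (s : ℕ → ℕ) (H : ℕ) (y : ℝ) (M : ℕ) : ℕ :=
  ∑ m ∈ Ioc M (2 * M), ((Ioc (s m) (s m + H)).filter
    (fun c : ℕ => c ≤ m ∧ Nat.Coprime c m ∧ y * m < leastPrime c m)).card

open Pool.Agent.K9h44.SC in
lemma s_lam : S_LAM := by
  intro B U
  obtain ⟨C, X₀, h⟩ := Pool.Agent.K9h19.CR.lam_cls Pool.Agent.K9h19.CR.s_chr Pool.Agent.K9h19.CR.s_moc B U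
  refine ⟨C, X₀, ?_⟩
  intro x hx q hq hqx c Y hY hYx
  exact h x hx q hq hqx c Y hY hYx

open Pool.Agent.K9h44.SC in
lemma late_sub (s : ℕ → ℕ) (H : ℕ) (y : ℝ) (M : ℕ) :
    (latePairs s H y M : ℝ) ≤
      ∑ m ∈ Ioc M (2 * M), ((Bad (fun m => min (s m) m) H y m).card : ℝ) := by
  classical
  unfold latePairs
  rw [Nat.cast_sum]
  apply Finset.sum_le_sum
  intro m _
  apply Nat.cast_le.2
  apply card_le_card
  intro c hc
  unfold Bad
  rw [mem_filter, mem_Ioc] at hc ⊢
  obtain ⟨⟨h1, h2⟩, h3, h4, h5⟩ := hc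
  have h6 : min (s m) m = s m := min_eq_left (by omega)
  refine ⟨?_, h3, h4, ?_⟩
  · simp only [h6]
    exact ⟨h1, h2⟩
  · intro p hp hpc
    have h7 : leastPrime c m ≤ p := Nat.sInf_le (s := {p : ℕ | p.Prime ∧ p ≡ c [MOD m]}) ⟨hp, hpc⟩
    have h8 : ((leastPrime c m : ℕ) : ℝ) ≤ p := by exact_mod_cast h7
    linarith

lemma late_trivial (s : ℕ → ℕ) (H : ℕ) (y : ℝ) (M : ℕ) : (latePairs s H y M : ℝ) ≤ M * H := by
  classical
  unfold latePairs
  have h1 : ∀ m ∈ Ioc M (2 * M), ((Ioc (s m) (s m + H)).filter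
      (fun c : ℕ => c ≤ m ∧ Nat.Coprime c m ∧ y * m < leastPrime c m)).card ≤ H := by
    intro m _
    refine (card_filter_le _ _).trans ?_
    rw [Nat.card_Ioc]
    omega
  have h2 := Finset.sum_le_sum h1
  rw [Finset.sum_const, Nat.card_Ioc, smul_eq_mul] at h2
  have h3 : (2 * M - M) * H = M * H := by
    congr 1
    omega
  rw [h3] at h2
  exact_mod_cast h2

open Pool.Agent.K9h44.SC in
/-- There is a constant `C` such that for every `A` there are `D` and `M₀` with the following property: for all `M ≥ M₀`, all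
`H` with `M^(1/3) (log M)^D ≤ H ≤ M`, all `y` with `1 ≤ y ≤ (log M)^A` and all `s` with `s(m) ≤ s(m + 1) + y / 4` for
`M < m < 2M`, there are at most `C M H log M / y + M H / (log M)^A` pairs `(m, c)` with `M < m ≤ 2M`,
`s(m) < c ≤ min(s(m) + H, m)`, `(c, m) = 1` and `p(c, m) > y m`. -/
theorem result : ∃ C : ℝ, ∀ A : ℕ, ∃ D M₀ : ℕ, ∀ M : ℕ, M₀ ≤ M → ∀ (s : ℕ → ℕ) (H : ℕ) (y : ℝ),
    (M : ℝ) ^ (1 / 3 : ℝ) * Real.log M ^ D ≤ H → H ≤ M → 1 ≤ y → y ≤ Real.log M ^ A →
    (∀ m : ℕ, M < m → m < 2 * M → (s m : ℝ) ≤ s (m + 1) + y / 4) →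
    (latePairs s H y M : ℝ) ≤ C * M * H * Real.log M / y + M * H / Real.log M ^ A := by
  refine ⟨16, ?_⟩
  intro A
  obtain ⟨D, M₀, h⟩ := main_count (one (rng s_lam)) (pair (rng s_lam)) w_bd sumw sumd zz nc pp A
  refine ⟨D, max M₀ 3, ?_⟩
  intro M hM s H y hH1 hHM hy1 hyA hs
  have hM3 : 3 ≤ M := (le_max_right _ _).trans hM
  have hL1 : 1 ≤ Real.log M := by
    have h1 : Real.log (Real.exp 1) ≤ Real.log M := by
      apply Real.log_le_log (Real.exp_pos 1)
      have h2 := Real.exp_one_lt_d9
      have h3 : (3 : ℝ) ≤ M := by exact_mod_cast hM3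
      linarith
    rwa [Real.log_exp] at h1
  have hQ0 : 0 ≤ (M : ℝ) * H / Real.log M ^ A := by positivity
  have hMH0 : 0 ≤ (M : ℝ) * H := by positivity
  rcases le_or_gt 16 y with h16 | h16
  · have h1 := h M ((le_max_left _ _).trans hM) (fun m => min (s m) m) H y hH1 hHM h16 hyA
      (fun m _ => min_le_right _ _) (by
        intro m hm1 hm2
        have e1 := hs m hm1 hm2
        push_cast
        rcases le_total (s (m + 1) : ℝ) ((m : ℝ) + 1) with h2 | h2
        · rw [min_eq_left h2]
          exact (min_le_left _ _).trans e1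
        · rw [min_eq_right h2]
          refine (min_le_right _ _).trans ?_
          linarith)
    refine (late_sub s H y M).trans (h1.trans ?_)
    apply add_le_add_left
    have e2 : 0 ≤ (M : ℝ) * H * Real.log M / y := by positivity
    have e3 : 16 * (M : ℝ) * H * Real.log M / y = 16 * ((M : ℝ) * H * Real.log M / y) := by ring
    rw [e3]
    linarith
  · refine (late_trivial s H y M).trans ?_
    have hy0 : 0 < y := by linarith
    have e1 : (M : ℝ) * H ≤ 16 * M * H * Real.log M / y := by
      rw [le_div_iff₀ hy0]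
      have e2 : y ≤ 16 * Real.log M := by linarith
      calc (M : ℝ) * H * y ≤ M * H * (16 * Real.log M) := mul_le_mul_of_nonneg_left e2 hMH0
        _ = 16 * M * H * Real.log M := by ring
    linarith

end Pool.Agent.Results.MP_e1dc24_nt.ShortIntervalsOfClasses
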