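import Pool.Agent.K9h19.CR.Asm
import Pool.Agent.K9h19.CR.BD6

set_option autoImplicit false

/-!
# The least primes in the arithmetic progressions whose moduli lie in a short interval

`p(c, m)` is the least prime `p ≡ c (mod m)`. For every `A` there are `D`, `M₀` such that for all `M ≥ M₀`, all `K ≤ M` and
all `y ≥ 1` with `K ≥ (log M)^D` and `K y^(2/3) ≥ M^(1/3) (log M)^D`

`#{(m, c) : M < m ≤ M + K, 0 ≤ c < m, (c, m) = 1, p(c, m) > y m} ≤ C K M log M / y + K M / (log M)^A`

with an absolute constant `C`. So, if the moduli run over an interval `(M, M + K]` with `K ≥ M^(1/3) (log M)^D`, then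
`p(c, m) ≤ h m log m` for all but `O(1 / h)` of the pairs (this is the true order of magnitude: there are too few primes
up to `ε m log m`), and `p(c, m) ≤ m (log m)^(A + 1)` for all but `O((log M)^(-A))` of the pairs; and if the bound for the
prime is `y m` with a larger `y`, then fewer moduli are enough, e.g. `(log M)^D` moduli for `y ≥ M^(1/2)`.

Proof (in Lean, without any unproved hypothesis): for a class without a prime up to `N = y M` the sum of the error term
(primes less a sieve model) over the class is large. The mean square of these sums over the classes modulo the `m` in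
`(M, M + K]` is the same thing as the mean square over all windows of the length `N / M` of all the progressions with
these differences. By the circle method the sum over the moduli saves a factor `N / M` unless the frequency is
within `(log M)^B / (y K)` of a rational number with denominator `≤ (log M)^B`, and there it is a mean square of the primes in a
progression in short intervals (the prime number theorem in progressions in almost all short intervals, proved in
`K9h19/CR`, with the theorem of Siegel and Walfisz). The model is treated by its pair correlations.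
-/

namespace Pool.Agent.Results.MP_e1dc24_nt.ShortIntervalsOfModuli

open Finset Filter Topology

/-- `p(c, m)`: the least prime `p ≡ c (mod m)`. -/
noncomputable def leastPrime (c m : ℕ) : ℕ := sInf {p : ℕ | p.Prime ∧ p ≡ c [MOD m]}

open Classical in
/-- The classes `c` modulo `m`, `0 ≤ c < m`, `(c, m) = 1`, with `p(c, m) > y m`. -/
noncomputable def late (y : ℝ) (m : ℕ) : Finset ℕ :=
  (range m).filter (fun c : ℕ => Nat.Coprime c m ∧ y * m < leastPrime c m)

open Pool.Agent.K9h19.CR in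
lemma late_sub {y : ℝ} {m N : ℕ} (h : (N : ℝ) ≤ y * m) : late y m ⊆ lateS N m := by
  classical
  intro c hc
  unfold late at hc
  unfold lateS
  rw [mem_filter] at hc ⊢
  obtain ⟨h1, h2, h3⟩ := hc
  refine ⟨h1, h2.symm, ?_⟩
  intro p hp hpN hpm
  have h4 : leastPrime c m ≤ p := by
    apply Nat.sInf_le
    refine ⟨hp, ?_⟩
    have hcm : c < m := mem_range.1 h1
    unfold Nat.ModEq
    rw [hpm, Nat.mod_eq_of_lt hcm]
  have h5 : ((leastPrime c m : ℕ) : ℝ) ≤ N := by exact_mod_cast h4.trans hpN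
  linarith

open Pool.Agent.K9h19.CR in
/-- The number of the pairs `(m, c)` with `M < m ≤ M + K`, `(c, m) = 1` and `p(c, m) > y m`. -/
theorem result : ∃ C : ℝ, 0 < C ∧ ∀ A : ℕ, ∃ D M₀ : ℕ, ∀ M : ℕ, M₀ ≤ M → ∀ K : ℕ, K ≤ M → ∀ y : ℝ, 1 ≤ y →
    Real.log M ^ D ≤ K → (M : ℝ) ^ (1 / 3 : ℝ) * Real.log M ^ D ≤ K * y ^ (2 / 3 : ℝ) →
    ((∑ m ∈ Ioc M (M + K), (late y m).card : ℕ) : ℝ) ≤ C * (K * M * Real.log M / y) + K * M / Real.log M ^ A := by
  refine ⟨1000000000, by norm_num, fun A => ?_⟩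
  obtain ⟨D, M₁, h1⟩ := late_all s_chr s_moc (A + 1)
  obtain ⟨M₂, h2⟩ := ev_natlog (P := fun l => 2 ≤ l ∧ 1000000000 * l ^ (A + 1) ≤ Real.exp (1 * l)) (by
    filter_upwards [eventually_ge_atTop 2, ev_exp 1 1000000000 (A + 1) (by norm_num)] with l h1 h2
    exact ⟨h1, h2⟩)
  refine ⟨D + 1, M₁ + M₂ + 3, fun M hM K hKM y hy hK hKy => ?_⟩
  obtain ⟨g1, g2⟩ := h2 M (by omega)
  have hM0 : (0 : ℝ) < M := by exact_mod_cast (by omega : 0 < M)
  have hM1 : (1 : ℝ) ≤ M := by exact_mod_cast (by omega : 1 ≤ M)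
  rw [one_mul, Real.exp_log hM0] at g2
  obtain ⟨L, hL⟩ : ∃ L : ℝ, L = Real.log M := ⟨_, rfl⟩
  rw [← hL] at g1 g2 hK hKy ⊢
  have hL0 : 0 < L := by linarith
  have hL1 : 1 ≤ L := by linarith
  have hy0 : 0 < y := by linarith
  have hKD : L ^ D ≤ K := by
    refine le_trans ?_ hK
    rw [pow_succ]
    exact le_mul_of_one_le_right (by positivity) hL1
  have hK0 : (0 : ℝ) < K := lt_of_lt_of_le (by positivity) hK
  push_cast
  have hcard : ∀ N : ℕ, (N : ℝ) ≤ y * M →
      ∑ m ∈ Ioc M (M + K), ((late y m).card : ℝ) ≤ ∑ m ∈ Ioc M (M + K), (((lateS N m).card : ℕ) : ℝ) := by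
    intro N hN
    apply Finset.sum_le_sum
    intro m hm
    rw [mem_Ioc] at hm
    have hmM : (M : ℝ) ≤ m := by exact_mod_cast hm.1.le
    have h3 : late y m ⊆ lateS N m := late_sub (hN.trans (by gcongr))
    exact_mod_cast card_le_card h3
  rcases le_or_gt y M with hyM | hyM
  · obtain ⟨N, hN⟩ : ∃ N : ℕ, N = ⌊y * M⌋₊ := ⟨_, rfl⟩
    have hN1 : (N : ℝ) ≤ y * M := by rw [hN]; exact Nat.floor_le (by positivity)
    have hN2 : y * M < N + 1 := by rw [hN]; exact Nat.lt_floor_add_one _
    have hMN : M ≤ N := by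
      rw [hN]
      apply Nat.le_floor
      exact le_mul_of_one_le_left hM0.le hy
    have hMNr : (M : ℝ) ≤ N := by exact_mod_cast hMN
    have hN3 : y * M / 2 ≤ N := by linarith
    have hN4 : N ≤ M ^ 2 := by
      have h3 : (N : ℝ) ≤ (M : ℝ) ^ 2 := by
        calc (N : ℝ) ≤ y * M := hN1
          _ ≤ M * M := by gcongr
          _ = _ := by ring
      exact_mod_cast h3
    have hN0 : (0 : ℝ) < N := by linarith
    refine (hcard N hN1).trans ?_
    have h3 := h1 M K N (by omega) hKM (by rw [← hL]; exact hKD) hMN hN4 (by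
      rw [← hL]
      have e1 : (y * M / 2) ^ (2 / 3 : ℝ) ≤ (N : ℝ) ^ (2 / 3 : ℝ) := Real.rpow_le_rpow (by positivity) hN3 (by norm_num)
      have e2 : y ^ (2 / 3 : ℝ) * (M : ℝ) ^ (2 / 3 : ℝ) * (1 / 2) ≤ (y * M / 2) ^ (2 / 3 : ℝ) := by
        rw [show y * M / 2 = y * M * (1 / 2) by ring, Real.mul_rpow (by positivity) (by norm_num),
          Real.mul_rpow hy0.le hM0.le]
        apply mul_le_mul_of_nonneg_left _ (by positivity)
        calc (1 / 2 : ℝ) = (1 / 2 : ℝ) ^ (1 : ℝ) := (Real.rpow_one _).symm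
          _ ≤ (1 / 2 : ℝ) ^ (2 / 3 : ℝ) :=
            Real.rpow_le_rpow_of_exponent_ge (by norm_num) (by norm_num) (by norm_num)
      have e3 : (M : ℝ) ^ (1 / 3 : ℝ) * (M : ℝ) ^ (2 / 3 : ℝ) = M := by
        rw [← Real.rpow_add hM0]
        norm_num
      calc (M : ℝ) * L ^ D ≤ M * L ^ D * (L / 2) := le_mul_of_one_le_right (by positivity) (by linarith)
        _ = ((M : ℝ) ^ (1 / 3 : ℝ) * (M : ℝ) ^ (2 / 3 : ℝ)) * L ^ (D + 1) * (1 / 2) := by
            rw [e3, pow_succ]
            ring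
        _ = ((M : ℝ) ^ (1 / 3 : ℝ) * L ^ (D + 1)) * ((M : ℝ) ^ (2 / 3 : ℝ) * (1 / 2)) := by ring
        _ ≤ (K * y ^ (2 / 3 : ℝ)) * ((M : ℝ) ^ (2 / 3 : ℝ) * (1 / 2)) := by
            apply mul_le_mul_of_nonneg_right hKy (by positivity)
        _ = K * (y ^ (2 / 3 : ℝ) * (M : ℝ) ^ (2 / 3 : ℝ) * (1 / 2)) := by ring
        _ ≤ K * (N : ℝ) ^ (2 / 3 : ℝ) := by
            apply mul_le_mul_of_nonneg_left (e2.trans e1) hK0.le)
    rw [← hL] at h3
    refine h3.trans ?_
    have e1 : K * (M : ℝ) ^ 2 * L / N ≤ 2 * (K * M * L / y) := by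
      calc K * (M : ℝ) ^ 2 * L / N ≤ K * (M : ℝ) ^ 2 * L / (y * M / 2) :=
            div_le_div_of_nonneg_left (by positivity) (by positivity) hN3
        _ = 2 * (K * M * L / y) := by
            field_simp
    have e2 : K * (M : ℝ) / L ^ (A + 1) ≤ K * M / L ^ A := by
      apply div_le_div_of_nonneg_left (by positivity) (by positivity)
      exact pow_le_pow_right₀ hL1 (by omega)
    linarith
  · have h3 := h1 M K (M ^ 2) (by omega) hKM (by rw [← hL]; exact hKD) (by
      calc M = M * 1 := (mul_one _).symm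
        _ ≤ M * M := Nat.mul_le_mul_left _ (by omega)
        _ = M ^ 2 := by ring) le_rfl (by
      rw [← hL]
      have e1 : (M : ℝ) ≤ ((M ^ 2 : ℕ) : ℝ) ^ (2 / 3 : ℝ) := by
        push_cast
        rw [← Real.rpow_natCast, ← Real.rpow_mul hM0.le]
        calc (M : ℝ) = (M : ℝ) ^ (1 : ℝ) := (Real.rpow_one _).symm
          _ ≤ _ := Real.rpow_le_rpow_of_exponent_le hM1 (by norm_num)
      calc (M : ℝ) * L ^ D = L ^ D * M := mul_comm _ _
        _ ≤ K * ((M ^ 2 : ℕ) : ℝ) ^ (2 / 3 : ℝ) := mul_le_mul hKD e1 hM0.le hK0.le)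
    rw [← hL] at h3
    refine (hcard (M ^ 2) (by
      push_cast
      rw [sq]
      gcongr)).trans (h3.trans ?_)
    have e1 : K * (M : ℝ) ^ 2 * L / ((M ^ 2 : ℕ) : ℝ) = K * L := by
      push_cast
      field_simp
    rw [e1]
    have e2 : 500000000 * (K * L) ≤ 1 / 2 * (K * (M : ℝ) / L ^ A) := by
      have e3 : 500000000 * L ≤ 1 / 2 * (M / L ^ A) := by
        rw [mul_div_assoc', le_div_iff₀ (by positivity)]
        have e4 : 500000000 * L * L ^ A = 500000000 * L ^ (A + 1) := by ring
        rw [e4]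
        linarith
      calc 500000000 * (K * L) = K * (500000000 * L) := by ring
        _ ≤ K * (1 / 2 * (M / L ^ A)) := mul_le_mul_of_nonneg_left e3 hK0.le
        _ = _ := by ring
    have e3 : K * (M : ℝ) / L ^ (A + 1) ≤ 1 / 2 * (K * M / L ^ A) := by
      rw [pow_succ L A]
      have e6 : K * (M : ℝ) / L ^ A = (K * M / (L ^ A * L)) * L := by
        field_simp
      rw [e6]
      have e7 : 0 ≤ K * (M : ℝ) / (L ^ A * L) := by positivity
      calc K * (M : ℝ) / (L ^ A * L) = K * (M : ℝ) / (L ^ A * L) * 1 := (mul_one _).symm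
        _ ≤ K * (M : ℝ) / (L ^ A * L) * (L / 2) := mul_le_mul_of_nonneg_left (by linarith) e7
        _ = _ := by ring
    have e4 : 0 ≤ K * (M : ℝ) * L / y := by positivity
    linarith

end Pool.Agent.Results.MP_e1dc24_nt.ShortIntervalsOfModuli
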